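import Pool.Agent.H.MP_626926_al.Main

namespace Pool.Agent.Results.MP_626926_al.Q1

def IsLocalMonoid {X : Type} [TopologicalSpace X] (M : Set (X → X)) : Prop :=
  id ∈ M ∧ (∀ f ∈ M, ∀ g ∈ M, f ∘ g ∈ M) ∧ IsClosed M

theorem result (X : Type) [Countable X] [Infinite X] [TopologicalSpace X] [DiscreteTopology X]
    (L : Type) [Lattice L] [BoundedOrder L]
    (hL : IsAntichain (· ≤ ·) {x : L | x ≠ ⊥ ∧ x ≠ ⊤})
    (hc : Cardinal.mk {x : L // x ≠ ⊥ ∧ x ≠ ⊤} = Cardinal.continuum) :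
    ∃ Φ : L → {M : Set (X → X) // IsLocalMonoid M}, Function.Injective Φ ∧
      ∀ a b, IsGLB {Φ a, Φ b} (Φ (a ⊓ b)) ∧ IsLUB {Φ a, Φ b} (Φ (a ⊔ b)) := by
  obtain ⟨σ, h0, h1, h2, h3⟩ := Pool.Agent.H.MP_626926_al.exists_act X
  obtain ⟨S, s1, s2, s3, s4⟩ := Pool.Agent.H.MP_626926_al.exists_lines L hL hc
  refine ⟨fun a => ⟨σ '' (S a : Set _), ⟨0, (S a).zero_mem, h0⟩, ?_,
    Pool.Agent.H.MP_626926_al.isClosed_of_loc _ (h3 _ (s2 a))⟩, fun a b e => ?_,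
    fun a b => ⟨⟨?_, fun N hN => ?_⟩, ⟨?_, fun N hN => ?_⟩⟩⟩
  · rintro _ ⟨u, hu, rfl⟩ _ ⟨v, hv, rfl⟩
    exact ⟨u + v, (S a).add_mem hu hv, h1 u v⟩
  · exact s1 (SetLike.coe_injective (h2.image_injective (congrArg Subtype.val e)))
  · rintro _ (rfl | rfl)
    · exact Set.image_mono (show S (a ⊓ b) ≤ S a by rw [s3]; exact inf_le_left)
    · exact Set.image_mono (show S (a ⊓ b) ≤ S _ by rw [s3]; exact inf_le_right)
  · intro f hf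
    obtain ⟨u, hu, rfl⟩ := hN (Or.inl rfl) hf
    obtain ⟨v, hv, e⟩ := hN (Or.inr rfl) hf
    exact ⟨u, by rw [s3]; exact ⟨hu, h2 e ▸ hv⟩, rfl⟩
  · rintro _ (rfl | rfl)
    · exact Set.image_mono (show S a ≤ S (a ⊔ b) by rw [s4]; exact le_sup_left)
    · exact Set.image_mono (show S _ ≤ S (a ⊔ _) by rw [s4]; exact le_sup_right)
  · rintro _ ⟨w, hw, rfl⟩
    rw [s4] at hw
    obtain ⟨u, hu, v, hv, rfl⟩ := AddSubgroup.mem_sup.1 hw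
    rw [h1]
    exact N.2.2.1 _ (hN (Or.inl rfl) ⟨u, hu, rfl⟩) _ (hN (Or.inr rfl) ⟨v, hv, rfl⟩)

end Pool.Agent.Results.MP_626926_al.Q1
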