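import Pool.Agent.H.MP_626926_al.Main

namespace Pool.Agent.Results.MP_626926_al.Q2

def IsLocalGroup {X : Type} [TopologicalSpace X] (G : Subgroup (Equiv.Perm X)) : Prop :=
  ∃ C : Set (X → X), IsClosed C ∧ ∀ g : Equiv.Perm X, g ∈ G ↔ (g : X → X) ∈ C

theorem result (X : Type) [Countable X] [Infinite X] [TopologicalSpace X] [DiscreteTopology X]
    (L : Type) [Lattice L] [BoundedOrder L]
    (hL : IsAntichain (· ≤ ·) {x : L | x ≠ ⊥ ∧ x ≠ ⊤})
    (hc : Cardinal.mk {x : L // x ≠ ⊥ ∧ x ≠ ⊤} = Cardinal.continuum) :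
    ∃ Φ : L → {G : Subgroup (Equiv.Perm X) // IsLocalGroup G}, Function.Injective Φ ∧
      ∀ a b, IsGLB {Φ a, Φ b} (Φ (a ⊓ b)) ∧ IsLUB {Φ a, Φ b} (Φ (a ⊔ b)) := by
  obtain ⟨σ, h0, h1, h2, h3⟩ := Pool.Agent.H.MP_626926_al.exists_act X
  obtain ⟨S, s1, s2, s3, s4⟩ := Pool.Agent.H.MP_626926_al.exists_lines L hL hc
  let ρ : Multiplicative Pool.Agent.H.MP_626926_al.W →* Equiv.Perm X := MonoidHom.mk'
    (fun v => ⟨σ v.toAdd, σ (-v.toAdd),
      fun x => by rw [← Function.comp_apply (f := σ _), ← h1, neg_add_cancel, h0]; rfl,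
      fun x => by rw [← Function.comp_apply (f := σ _), ← h1, add_neg_cancel, h0]; rfl⟩)
    (fun u v => Equiv.ext fun x => congrFun (h1 u.toAdd v.toAdd) x)
  have hρ : Function.Injective ρ := fun u v e =>
    h2 (congrArg (fun g : Equiv.Perm X => (g : X → X)) e)
  let T : L → Subgroup (Equiv.Perm X) := fun a => (AddSubgroup.toSubgroup (S a)).map ρ
  have t3 : ∀ a b, T (a ⊓ b) = T a ⊓ T b := fun a b => by
    simp only [T, s3, map_inf, Subgroup.map_inf _ _ _ hρ]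
  have t4 : ∀ a b, T (a ⊔ b) = T a ⊔ T b := fun a b => by
    simp only [T, s4, map_sup, Subgroup.map_sup]
  refine ⟨fun a => ⟨T a, σ '' (S a : Set _),
    Pool.Agent.H.MP_626926_al.isClosed_of_loc _ (h3 _ (s2 a)), fun g => ⟨?_, ?_⟩⟩, fun a b e => ?_,
    fun a b => ⟨⟨?_, fun N hN => ?_⟩, ⟨?_, fun N hN => ?_⟩⟩⟩
  · rintro ⟨v, hv, rfl⟩
    exact ⟨v.toAdd, hv, rfl⟩
  · rintro ⟨v, hv, e⟩
    exact ⟨Multiplicative.ofAdd v, hv, Equiv.ext fun x => congrFun e x⟩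
  · exact s1 (AddSubgroup.toSubgroup.injective
      (Subgroup.map_injective hρ (congrArg Subtype.val e)))
  · rintro _ (rfl | rfl)
    · exact show T (a ⊓ b) ≤ T a by rw [t3]; exact inf_le_left
    · exact show T (a ⊓ b) ≤ T _ by rw [t3]; exact inf_le_right
  · exact show N.1 ≤ T (a ⊓ b) by rw [t3]; exact le_inf (hN (Or.inl rfl)) (hN (Or.inr rfl))
  · rintro _ (rfl | rfl)
    · exact show T a ≤ T (a ⊔ b) by rw [t4]; exact le_sup_left
    · exact show T _ ≤ T (a ⊔ _) by rw [t4]; exact le_sup_right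
  · exact show T (a ⊔ b) ≤ N.1 by rw [t4]; exact sup_le (hN (Or.inl rfl)) (hN (Or.inr rfl))

end Pool.Agent.Results.MP_626926_al.Q2
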